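import Mathlib

set_option autoImplicit false

open Set Filter Topology TopologicalSpace Pointwise

namespace Pool.Agent.H.MP_5e9a16

variable {H : Type*} [Group H] [TopologicalSpace H] [IsTopologicalGroup H]

lemma move {x : ℕ → H} (hx : Tendsto (fun p : ℕ × ℕ => x p.1 * (x p.2)⁻¹) atTop (𝓝 1))
    {V W : Set H} (v1 : IsOpen V) (v2 : V.Nonempty) (h : ∀ᶠ m in atTop, ∀ v ∈ V, (x m)⁻¹ * v ∈ W) :
    ∃ U, IsOpen U ∧ U.Nonempty ∧ U ⊆ W ∧ ∀ᶠ m in atTop, ∀ u ∈ U, x m * u ∈ V := by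
  obtain ⟨v, hv⟩ := v2
  obtain ⟨O, o1, P, p1, e⟩ := mem_nhds_prod_iff.1 (continuous_mul.tendsto' ((1 : H), v) v
    (one_mul v) (v1.mem_nhds hv))
  obtain ⟨N, hN⟩ := eventually_atTop_prod_self'.1 (show ∀ᶠ p : ℕ × ℕ in atTop, x p.1 * (x p.2)⁻¹ ∈ O
    from hx o1)
  obtain ⟨M, m1, m2⟩ := (h.and (eventually_ge_atTop N)).exists
  refine ⟨(x M * ·) ⁻¹' (interior P ∩ V), (isOpen_interior.inter v1).preimage (by fun_prop),
    ⟨(x M)⁻¹ * v, by simpa using ⟨mem_interior_iff_mem_nhds.2 p1, hv⟩⟩,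
    fun u hu => by simpa using m1 _ hu.2, (eventually_ge_atTop N).mono fun m hm u hu => ?_⟩
  simpa using e (a := (_, _)) ⟨hN m hm M m2, interior_subset hu.1⟩

theorem cm [MetrizableSpace H] {σ : Type*} (P : ℕ → σ → Prop) (R : σ → σ → Prop) (W : σ → Set H)
    (h0 : ∃ s, P 0 s ∧ W s = univ) (h1 : ∀ n s, P n s → IsOpen (W s) ∧ (W s).Nonempty)
    (h2 : ∀ n s U, P n s → IsOpen U → U.Nonempty → U ⊆ W s → ∃ t, P (n + 1) t ∧ R s t ∧ W t ⊆ U)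
    (h3 : ∀ s : ℕ → σ, (∀ n, P n (s n) ∧ R (s n) (s (n + 1))) → ∃ a, ∀ n, a ∈ W (s n)) :
    IsCompletelyMetrizableSpace H := by
  have key : ∀ x : ℕ → H, Tendsto (fun p : ℕ × ℕ => x p.1 * (x p.2)⁻¹) atTop (𝓝 1) →
      Tendsto (fun p : ℕ × ℕ => (x p.1)⁻¹ * (x p.2)⁻¹⁻¹) atTop (𝓝 1) →
      ∃ a, Tendsto x atTop (𝓝 a) := fun x x1 x2 => by
    letI := metrizableSpaceMetric H
    obtain ⟨s0, s1, s2⟩ := h0
    have : ∀ n (p : {p : σ × σ // P n p.1 ∧ P n p.2 ∧ ∀ᶠ m in atTop, ∀ v ∈ W p.1, x m * v ∈ W p.2}),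
        ∃ q : {p : σ × σ // P (n + 1) p.1 ∧ P (n + 1) p.2 ∧ ∀ᶠ m in atTop, ∀ v ∈ W p.1,
          x m * v ∈ W p.2}, R p.1.1 q.1.1 ∧ R p.1.2 q.1.2 ∧
            ∀ a ∈ W q.1.2, ∀ b ∈ W q.1.2, dist a b < 2 * (1 / (n + 1)) := by
      rintro n ⟨⟨s, t⟩, a, b, c⟩
      obtain ⟨U, u1, ⟨u, u2⟩, u3, u4⟩ := move (x := fun m => (x m)⁻¹) x2 (h1 n s a).1 (h1 n s a).2
        (by simpa using c)
      obtain ⟨t', t1, t2, t3⟩ := h2 n t (U ∩ Metric.ball u (1 / (n + 1))) b (u1.inter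
        Metric.isOpen_ball) ⟨u, u2, Metric.mem_ball_self Nat.one_div_pos_of_nat⟩ fun _ h => u3 h.1
      obtain ⟨V, v1, v2, v3, v4⟩ := move x1 (h1 _ _ t1).1 (h1 _ _ t1).2
        (u4.mono fun m h v hv => h v (t3 hv).1)
      obtain ⟨s', s1, s2, s3⟩ := h2 n s V a v1 v2 v3
      exact ⟨⟨(s', t'), s1, t1, v4.mono fun m h v hv => h v (s3 hv)⟩, s2, t2, fun a ha b hb => by
        linarith [dist_triangle_right a b u, Metric.mem_ball.1 (t3 ha).2, Metric.mem_ball.1 (t3 hb).2]⟩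
    choose f f1 f2 f3 using this
    let p : ∀ n, {p : σ × σ // P n p.1 ∧ P n p.2 ∧ ∀ᶠ m in atTop, ∀ v ∈ W p.1, x m * v ∈ W p.2} :=
      fun n => Nat.rec ⟨(s0, s0), s1, s1, by simp [s2]⟩ f n
    obtain ⟨a, ha⟩ := h3 (fun n => (p n).1.1) fun n => ⟨(p n).2.1, f1 n _⟩
    obtain ⟨b, hb⟩ := h3 (fun n => (p n).1.2) fun n => ⟨(p n).2.2.1, f2 n _⟩
    suffices Tendsto (fun m => x m * a) atTop (𝓝 b) from
      ⟨b * a⁻¹, by simpa using this.mul_const a⁻¹⟩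
    refine Metric.tendsto_nhds.2 fun ε e => ?_
    obtain ⟨n, hn⟩ := exists_nat_one_div_lt (half_pos e)
    exact (p (n + 1)).2.2.2.mono fun m h => (f3 n (p n) _ (h a (ha (n + 1))) _
      (hb (n + 1))).trans (by linarith)
  letI u : UniformSpace H := (IsTopologicalGroup.rightUniformSpace H ⊓
    IsTopologicalGroup.leftUniformSpace H).replaceTopology (inf_idem _).symm
  have e : uniformity H = comap (fun p : H × H => p.2 * p.1⁻¹) (𝓝 1) ⊓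
    comap (fun p : H × H => p.1⁻¹ * p.2) (𝓝 1) := rfl
  haveI : (uniformity H).IsCountablyGenerated := e ▸ inferInstance
  haveI : CompleteSpace H := UniformSpace.complete_of_cauchySeq_tendsto fun x hx => by
    rw [cauchySeq_iff_tendsto, e, tendsto_inf, tendsto_comap_iff,
      tendsto_comap_iff] at hx
    exact key x (by simpa [Function.comp_def] using hx.1.inv)
      (by simpa [Function.comp_def] using hx.2)
  infer_instance

end Pool.Agent.H.MP_5e9a16
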